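import Mathlib
import Pool.Agent.Helper9.NS
import Pool.Agent.Helper40.CX.H26VC.Move
import Pool.Agent.Helper40.CX.Good

namespace CX

/-!
# Moving points on a quotient of a curve, lifted to the curve
-/

namespace VQ

open VC Function IntermediateField

universe u

section lift

open Polynomial

variable {k F K : Type*} [Field k] [IsAlgClosed k] [Good k]
  [Field F] [Algebra k F] [Field K] [Algebra k K] [Algebra F K] [IsScalarTower k F K]

/-- Embeddings of function fields over `k(t)` in a Galois cover extend to this cover. -/
theorem exists_lift (t : F) (ht : Transcendental k t)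
    (G : Type*) [Group G] [Finite G] [MulSemiringAction G K]
    (hG : IsGaloisGroup G k⟮algebraMap F K t⟯ K)
    (φ : F →ₐ[k] K) (hφ : φ t = algebraMap F K t) :
    ∃ ψ : K →ₐ[k] K, ∀ x : F, ψ (algebraMap F K x) = φ x := by
  have htK : Transcendental k (algebraMap F K t) :=
    (transcendental_algebraMap_iff (algebraMap F K).injective).mpr ht
  let i1 : Algebra k[X] F := polyAlg t
  let i2 : Algebra k[X] K := polyAlg (algebraMap F K t)
  let i3 : Algebra (RatFunc k) F := ratAlg t ht
  let i4 : Algebra (RatFunc k) K := ratAlg (algebraMap F K t) htK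
  have s1 : IsScalarTower k k[X] F := IsScalarTower.of_algebraMap_eq (fun x =>
    (aeval t : k[X] →ₐ[k] F).commutes x |>.symm)
  have s2 : IsScalarTower k k[X] K := IsScalarTower.of_algebraMap_eq (fun x =>
    (aeval (algebraMap F K t) : k[X] →ₐ[k] K).commutes x |>.symm)
  have s3 : IsScalarTower k[X] (RatFunc k) F := IsScalarTower.of_algebraMap_eq (fun x =>
    (ratAlg_poly t ht x).symm)
  have s4 : IsScalarTower k[X] (RatFunc k) K := IsScalarTower.of_algebraMap_eq (fun x =>
    (ratAlg_poly (algebraMap F K t) htK x).symm)
  have s5 : IsScalarTower k[X] F K := IsScalarTower.of_algebraMap_eq (fun x => by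
    change aeval (algebraMap F K t) x = algebraMap F K (aeval t x)
    rw [Polynomial.aeval_algebraMap_apply])
  have s6 : IsScalarTower (RatFunc k) F K := by
    apply IsScalarTower.of_algebraMap_eq'
    apply IsFractionRing.ringHom_ext (A := k[X])
    intro x
    rw [RingHom.comp_apply, ← IsScalarTower.algebraMap_apply k[X] (RatFunc k) K,
      ← IsScalarTower.algebraMap_apply k[X] (RatFunc k) F, ← IsScalarTower.algebraMap_apply]
  have s8 : IsScalarTower k (RatFunc k) K := IsScalarTower.of_algebraMap_eq (fun x => by
    rw [IsScalarTower.algebraMap_apply k k[X] (RatFunc k), ← IsScalarTower.algebraMap_apply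
      k[X] (RatFunc k) K, ← IsScalarTower.algebraMap_apply k k[X] K])
  have g1 : IsGaloisGroup G (RatFunc k) K :=
    IsGaloisGroup.of_ringEquiv G k⟮algebraMap F K t⟯ (RatFunc k) K
      (RatFunc.algEquivOfTranscendental (algebraMap F K t) htK).symm.toRingEquiv (by
        intro x
        change algebraMap k⟮algebraMap F K t⟯ K (RatFunc.algEquivOfTranscendental
          (algebraMap F K t) htK ((RatFunc.algEquivOfTranscendental (algebraMap F K t) htK).symm x))
          = _
        rw [AlgEquiv.apply_symm_apply])
  have f2 : FiniteDimensional (RatFunc k) K := IsGaloisGroup.finiteDimensional G (RatFunc k) K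
  have g2 : IsGalois (RatFunc k) K := IsGaloisGroup.isGalois G (RatFunc k) K
  let φ' : F →ₐ[RatFunc k] K :=
    { φ.toRingHom with
      commutes' := by
        intro r
        have h : (φ.toRingHom.comp (algebraMap (RatFunc k) F)) = algebraMap (RatFunc k) K := by
          apply IsFractionRing.ringHom_ext (A := k[X])
          intro x
          rw [RingHom.comp_apply, ← IsScalarTower.algebraMap_apply k[X] (RatFunc k) K,
            ← IsScalarTower.algebraMap_apply k[X] (RatFunc k) F]
          change φ (aeval t x) = aeval (algebraMap F K t) x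
          rw [← Polynomial.aeval_algHom_apply, hφ]
        exact congrArg (fun f => f r) h }
  refine ⟨(φ'.liftNormal K).restrictScalars k, fun x => ?_⟩
  exact φ'.liftNormal_commutes K x

end lift

section move

variable {k F E : Type u} [Field k] [IsAlgClosed k] [Good k] [Field F] [Algebra k F]
  [Field E] [Algebra k E] [Algebra F E] [IsScalarTower k F E]
  (hF : IsFunctionField k F) (hE : IsFunctionField k E)

/-- The image of a point under the morphism of curves given by `F → E`. -/
def res (P : Place k E) : Place k F := Place.comap hF hE (IsScalarTower.toAlgHom k F E) P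

lemma res_comap {K : Type u} [Field K] [Algebra k K] (hK : IsFunctionField k K)
    (φ : F →ₐ[k] K) (ψ : E →ₐ[k] K) (h : ∀ x : F, ψ (algebraMap F E x) = φ x) (v : Place k K) :
    res hF hE (Place.comap hE hK ψ v) = Place.comap hF hK φ v := by
  ext x
  change ψ (algebraMap F E x) ∈ v.ring ↔ φ x ∈ v.ring
  rw [h]

end move

end VQ

end CX
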